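import Pool.Agent.Helper17.QP.Fix
import Pool.Agent.Helper17.UD.UnitsM
import Pool.Agent.Helper16.QP.LDefs

/-!
# Project QP, block NII: points of the plane over a fixed extension
-/

set_option autoImplicit false

namespace Pool.Agent.QP

open NumberField Filter Module IntermediateField
open Pool.Agent.Helper64.Vojta (Pl nv sn above)
open Pool.Agent.V2
open Pool.Agent.Chart (fld dg crd val hgt lam H V Lm H_congr V_congr Lm_congr)

universe u

variable {k : Type u} [Field k] [NumberField k]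

omit [NumberField k] in
theorem gp_up (L : Type*) [Field L] [Algebra k L] {q : ℕ} (l : Fin q → Fin 3 → k) (hl : GP l) : GP fun i => up L (l i) := by
  intro i j m h1 h2 h3
  have h4 : d3 (up L (l i)) (up L (l j)) (up L (l m)) = algebraMap k L (d3 (l i) (l j) (l m)) := by
    simp only [d3, up, map_add, map_sub, map_mul]
  rw [h4, Ne, map_eq_zero_iff _ (algebraMap k L).injective]
  exact hl i j m h1 h2 h3

/-- The inequality over a fixed number field `E` above `k`. -/
theorem fix_E {q : ℕ} (l : Fin q → Fin 3 → k) (hl : GP l) (S : Finset (Pl k))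
    (E : IntermediateField k (AlgebraicClosure k)) [NumberField E] {ε : ℝ} (hε : 0 < ε) :
    ∃ C : ℝ, ∀ z : Fin 3 → E, z ≠ 0 → (∀ i, V E (l i) z ≠ 0) →
      ∑ ν ∈ S, ∑ i, Lm E (l i) ν z ≤ (4 + ε) * H E z + C := by
  classical
  obtain ⟨C, hC⟩ := fix (fun i => up E (l i)) (gp_up E l hl) (S.biUnion (above E)) ε hε
  have hfin : FiniteDimensional k E := by
    have : FiniteDimensional ℚ E := NumberField.to_finiteDimensional
    exact Module.Finite.of_restrictScalars_finite ℚ k E
  have hD : (0 : ℝ) < finrank k E := by exact_mod_cast Module.finrank_pos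
  refine ⟨C / finrank k E, fun z hz hv => ?_⟩
  have h1 := hC z hz hv
  rw [Finset.sum_biUnion (Pool.Agent.EXP.hdisj_above S)] at h1
  have h2 : ∑ ν ∈ S, ∑ i, Lm E (l i) ν z = (∑ ν ∈ S, ∑ w ∈ above E ν, ∑ i,
      (Real.log (sn w z) - Real.log (nv w (dt (up E (l i)) z)))) / finrank k E := by
    rw [Finset.sum_div]
    refine Finset.sum_congr rfl fun ν _ => ?_
    rw [Finset.sum_comm (s := above E ν), Finset.sum_div]
    rfl
  rw [h2, div_le_iff₀ hD]
  refine h1.trans (le_of_eq ?_)
  unfold H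
  field_simp

theorem fixed_field {q : ℕ} (l : Fin q → Fin 3 → k) (hl : GP l) (_hq : 4 ≤ q)
    (S : Finset (Pl k)) (U : Ultrafilter ℕ) (x : ℕ → Fin 3 → AlgebraicClosure k) (h1 : ∀ n, ∃ j, x n j = 1)
    (E : IntermediateField k (AlgebraicClosure k)) (hE : ∀ᶠ n in (U : Filter ℕ), fld (x n) = E)
    (hval : ∀ n i, val (l i) (x n) ≠ 0) (hh : Tendsto (fun n => hgt (x n)) (U : Filter ℕ) atTop) {ε : ℝ} (hε : 0 < ε) :
    ∀ᶠ n in (U : Filter ℕ), ∑ ν ∈ S, ∑ i, lam (l i) ν (x n) ≤ (4 + ε) * hgt (x n) := by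
  obtain ⟨n0, hn0⟩ := hE.exists
  subst hn0
  obtain ⟨C, hC⟩ := fix_E l hl S (fld (x n0)) (half_pos hε)
  filter_upwards [hE, hh.eventually_ge_atTop (C / (ε / 2))] with n hn hge
  let z : Fin 3 → fld (x n0) := fun i => ⟨x n i, by
    rw [← hn]
    exact subset_adjoin k _ (Set.mem_range_self i)⟩
  have hz : ∀ i, (crd (x n) i : AlgebraicClosure k) = z i := fun i => rfl
  have hz0 : z ≠ 0 := by
    obtain ⟨j, hj⟩ := h1 n
    intro h
    have h2 := congrArg (fun y : Fin 3 → fld (x n0) => (y j : AlgebraicClosure k)) h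
    have h3 : ((z j : fld (x n0)) : AlgebraicClosure k) = x n j := rfl
    simp only [h3, hj] at h2
    exact one_ne_zero h2
  have hV : ∀ i, V (fld (x n0)) (l i) z ≠ 0 := by
    intro i h
    exact hval n i ((V_congr _ _ hn (l i) (crd (x n)) z hz).2 h)
  have h2 := hC z hz0 hV
  have h3 : H (fld (x n0)) z = hgt (x n) := (H_congr _ _ hn (crd (x n)) z hz).symm
  have h4 : ∀ i ν, Lm (fld (x n0)) (l i) ν z = lam (l i) ν (x n) := fun i ν =>
    (Lm_congr _ _ hn (l i) ν (crd (x n)) z hz).symm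
  simp only [h3, h4] at h2
  have h5 : C ≤ ε / 2 * hgt (x n) := by
    rw [div_le_iff₀ (half_pos hε)] at hge
    linarith
  linarith

end Pool.Agent.QP
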