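import Pool.Agent.Helper16.QP.Defs

/-!
# Project QP, blocks A and T: linear algebra in the space of quadratic forms in three variables; types of the local data
-/

set_option autoImplicit false

namespace Pool.Agent.QP

open Module

variable {K : Type*} [Field K]

/-! ### Linear functionals and intersection points -/

/-- the intersection point of two lines -/
def cr (l m : Fin 3 → K) : Fin 3 → K := ![l 1 * m 2 - l 2 * m 1, l 2 * m 0 - l 0 * m 2, l 0 * m 1 - l 1 * m 0]

theorem dt_cr (l m n : Fin 3 → K) : dt n (cr l m) = d3 l m n := by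
  simp only [dt, cr, d3, Fin.sum_univ_succ, Fin.sum_univ_zero]
  simp [Matrix.cons_val_zero]
  ring

theorem dt_cr_left (l m : Fin 3 → K) : dt l (cr l m) = 0 := by
  rw [dt_cr, d3]; ring

theorem dt_cr_right (l m : Fin 3 → K) : dt m (cr l m) = 0 := by
  rw [dt_cr, d3]; ring

/-- the functional `pr · f` -/
def prL (f : Fin 6 → K) : (Fin 6 → K) →ₗ[K] K where
  toFun g := pr g f
  map_add' g h := by simp only [pr, Pi.add_apply, add_mul, Finset.sum_add_distrib]
  map_smul' c g := by simp only [pr, Pi.smul_apply, smul_eq_mul, mul_assoc, Finset.mul_sum, RingHom.id_apply]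

theorem prL_sy (l m x y : Fin 3 → K) : prL (ten x y) (sy l m) = dt l x * dt m y + dt m x * dt l y := pr_sy_ten l m x y

theorem prL_sq (l x y : Fin 3 → K) : prL (ten x y) (sy l l) = 2 * (dt l x * dt l y) := by
  rw [prL_sy]; ring

theorem dt_zero_of_span {l m n x : Fin 3 → K} (h : n ∈ Submodule.span K {l, m}) (h1 : dt l x = 0) (h2 : dt m x = 0) :
    dt n x = 0 := by
  obtain ⟨a, b, rfl⟩ := Submodule.mem_span_pair.1 h
  have : dt (a • l + b • m) x = a * dt l x + b * dt m x := by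
    simp only [dt, Pi.add_apply, Pi.smul_apply, smul_eq_mul, add_mul, Finset.sum_add_distrib, Finset.mul_sum, mul_assoc]
  rw [this, h1, h2]; ring

section GPsec

variable {q : ℕ} {l : Fin q → Fin 3 → K}

theorem GP.ne (hl : GP l) {i j k : Fin q} (h1 : i ≠ j) (h2 : i ≠ k) (h3 : j ≠ k) : dt (l k) (cr (l i) (l j)) ≠ 0 := by
  rw [dt_cr]
  exact hl i j k h1 h2 h3

end GPsec

variable {q : ℕ} (l : Fin q → Fin 3 → K)

/-- One evaluation, four squares die, the fifth coefficient is zero. -/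
theorem kill [CharZero K] {n1 n2 n3 n4 n5 : Fin 3 → K} {x y : Fin 3 → K} {c : Fin 5 → K}
    (h : c 0 • sy n1 n1 + c 1 • sy n2 n2 + c 2 • sy n3 n3 + c 3 • sy n4 n4 + c 4 • sy n5 n5 = 0)
    (h2 : dt n2 x * dt n2 y = 0) (h3 : dt n3 x * dt n3 y = 0) (h4 : dt n4 x * dt n4 y = 0) (h5 : dt n5 x * dt n5 y = 0)
    (h1 : dt n1 x * dt n1 y ≠ 0) : c 0 = 0 := by
  have h6 := congrArg (prL (ten x y)) h
  simp only [map_add, map_smul, prL_sq, map_zero, smul_eq_mul, h2, h3, h4, h5, mul_zero, add_zero] at h6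
  rcases mul_eq_zero.1 h6 with h7 | h7
  · exact h7
  · exact absurd h7 (mul_ne_zero two_ne_zero h1)

theorem indep5' [CharZero K] (hl : GP l) (i : Fin 5 → Fin q) (hi : Function.Injective i) (c : Fin 5 → K)
    (h : ∑ a, c a • sy (l (i a)) (l (i a)) = 0) (b : Fin 5) : c b = 0 := by
  classical
  -- the other four indices
  obtain ⟨e, he⟩ : ∃ e : Equiv.Perm (Fin 5), e 0 = b := ⟨Equiv.swap 0 b, Equiv.swap_apply_left 0 b⟩
  rw [← he]
  have h1 : ∑ a, c (e a) • sy (l (i (e a))) (l (i (e a))) = 0 := by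
    rw [Equiv.sum_comp e (fun a => c a • sy (l (i a)) (l (i a)))]
    exact h
  rw [Fin.sum_univ_five] at h1
  have hne : ∀ a b : Fin 5, a ≠ b → i (e a) ≠ i (e b) := fun a b hab h2 => hab (e.injective (hi h2))
  refine kill (c := fun a => c (e a)) (x := cr (l (i (e 1))) (l (i (e 2)))) (y := cr (l (i (e 3))) (l (i (e 4)))) h1 ?_ ?_ ?_ ?_ ?_
  · rw [dt_cr_left, zero_mul]
  · rw [dt_cr_right, zero_mul]
  · rw [dt_cr_left, mul_zero]
  · rw [dt_cr_right, mul_zero]
  · exact mul_ne_zero (hl.ne (hne _ _ (by decide)) (hne _ _ (by decide)) (hne _ _ (by decide)))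
      (hl.ne (hne _ _ (by decide)) (hne _ _ (by decide)) (hne _ _ (by decide)))

/-- A1. The squares of five lines in general position are independent. -/
theorem indep5 [CharZero K] (hl : GP l) (i : Fin 5 → Fin q) (hi : Function.Injective i) :
    LinearIndependent K fun a => sy (l (i a)) (l (i a)) :=
  Fintype.linearIndependent_iff.2 fun c h b => indep5' l hl i hi c h b

/-- the value of `m` at a point of the line `l_i`, other than the node -/
theorem dt_m_ne (hl : GP l) {i j i' j' : Fin q} (h1 : i ≠ j) (h2 : i ≠ i') (h3 : i ≠ j') (h4 : j ≠ i') (h6 : i' ≠ j')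
    {m : Fin 3 → K} (hm : m ≠ 0) (hm1 : m ∈ Submodule.span K {l i, l j}) (hm2 : m ∈ Submodule.span K {l i', l j'}) :
    dt m (cr (l i) (l i')) ≠ 0 := by
  obtain ⟨a, b, hab⟩ := Submodule.mem_span_pair.1 hm1
  have hlin : ∀ (a b : K) (u v x : Fin 3 → K), dt (a • u + b • v) x = a * dt u x + b * dt v x := by
    intro a b u v x
    simp only [dt, Pi.add_apply, Pi.smul_apply, smul_eq_mul, add_mul, Finset.sum_add_distrib, Finset.mul_sum, mul_assoc]
  intro h0
  have h5 : b = 0 := by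
    rw [← hab, hlin, dt_cr_left, mul_zero, zero_add] at h0
    rcases mul_eq_zero.1 h0 with h7 | h7
    · exact h7
    · exact absurd h7 (hl.ne h2 h1 (Ne.symm h4))
  have h7 : a ≠ 0 := by
    rintro rfl
    apply hm
    rw [← hab, h5, zero_smul, zero_smul, add_zero]
  have h8 : dt m (cr (l i') (l j')) = 0 := dt_zero_of_span hm2 (dt_cr_left _ _) (dt_cr_right _ _)
  rw [← hab, hlin, h5, zero_mul, add_zero] at h8
  rcases mul_eq_zero.1 h8 with h9 | h9
  · exact h7 h9
  · exact hl.ne h6 (Ne.symm h2) (Ne.symm h3) h9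

/-- A2. -/
theorem indep4m [CharZero K] (hl : GP l) (i j i' j' : Fin q) (h1 : i ≠ j) (h2 : i ≠ i') (h3 : i ≠ j') (h4 : j ≠ i') (h5 : j ≠ j') (h6 : i' ≠ j')
    (m : Fin 3 → K) (hm : m ≠ 0) (hm1 : m ∈ Submodule.span K {l i, l j}) (hm2 : m ∈ Submodule.span K {l i', l j'}) :
    LinearIndependent K ![sy (l i) (l i), sy (l j) (l j), sy (l i') (l i'), sy (l j') (l j'), sy m m] := by
  refine Fintype.linearIndependent_iff.2 fun c h => ?_
  rw [Fin.sum_univ_five] at h
  simp only [Matrix.cons_val_zero, Matrix.cons_val_one, Matrix.cons_val] at h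
  have hm1' : m ∈ Submodule.span K {l j, l i} := by rw [Set.pair_comm]; exact hm1
  have hm2' : m ∈ Submodule.span K {l j', l i'} := by rw [Set.pair_comm]; exact hm2
  have hc4 : c 4 = 0 := by
    refine kill (c := ![c 4, c 0, c 1, c 2, c 3]) (n1 := m) (n2 := l i) (n3 := l j) (n4 := l i') (n5 := l j')
      (x := cr (l i) (l i')) (y := cr (l j) (l j')) ?_ ?_ ?_ ?_ ?_ ?_
    · simp only [Matrix.cons_val_zero, Matrix.cons_val_one, Matrix.cons_val]
      rw [← h]; abel
    · rw [dt_cr_left, zero_mul]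
    · rw [dt_cr_left, mul_zero]
    · rw [dt_cr_right, zero_mul]
    · rw [dt_cr_right, mul_zero]
    · exact mul_ne_zero (dt_m_ne l hl h1 h2 h3 h4 h6 hm hm1 hm2)
        (dt_m_ne l hl (Ne.symm h1) h5 h4 h3 (Ne.symm h6) hm hm1' hm2')
  rw [hc4, zero_smul, add_zero] at h
  have hc0 : c 0 = 0 := by
    refine kill (c := ![c 0, c 1, c 2, c 3, 0]) (n1 := l i) (n2 := l j) (n3 := l i') (n4 := l j') (n5 := l j')
      (x := cr (l j) (l i')) (y := cr (l i') (l j')) ?_ ?_ ?_ ?_ ?_ ?_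
    · simp only [Matrix.cons_val_zero, Matrix.cons_val_one, Matrix.cons_val]
      rw [← h, zero_smul, add_zero]
    · rw [dt_cr_left, zero_mul]
    · rw [dt_cr_right, zero_mul]
    · rw [dt_cr_right, mul_zero]
    · rw [dt_cr_right, mul_zero]
    · exact mul_ne_zero (hl.ne h4 (Ne.symm h1) (Ne.symm h2)) (hl.ne h6 (Ne.symm h2) (Ne.symm h3))
  have hc1 : c 1 = 0 := by
    refine kill (c := ![c 1, c 0, c 2, c 3, 0]) (n1 := l j) (n2 := l i) (n3 := l i') (n4 := l j') (n5 := l j')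
      (x := cr (l i) (l i')) (y := cr (l i') (l j')) ?_ ?_ ?_ ?_ ?_ ?_
    · simp only [Matrix.cons_val_zero, Matrix.cons_val_one, Matrix.cons_val]
      rw [← h, zero_smul, add_zero]; abel
    · rw [dt_cr_left, zero_mul]
    · rw [dt_cr_right, zero_mul]
    · rw [dt_cr_right, mul_zero]
    · rw [dt_cr_right, mul_zero]
    · exact mul_ne_zero (hl.ne h2 h1 (Ne.symm h4)) (hl.ne h6 (Ne.symm h4) (Ne.symm h5))
  have hc2 : c 2 = 0 := by
    refine kill (c := ![c 2, c 0, c 1, c 3, 0]) (n1 := l i') (n2 := l i) (n3 := l j) (n4 := l j') (n5 := l j')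
      (x := cr (l i) (l j)) (y := cr (l j) (l j')) ?_ ?_ ?_ ?_ ?_ ?_
    · simp only [Matrix.cons_val_zero, Matrix.cons_val_one, Matrix.cons_val]
      rw [← h, zero_smul, add_zero]; abel
    · rw [dt_cr_left, zero_mul]
    · rw [dt_cr_right, zero_mul]
    · rw [dt_cr_right, mul_zero]
    · rw [dt_cr_right, mul_zero]
    · exact mul_ne_zero (hl.ne h1 h2 h4) (hl.ne h5 h4 (Ne.symm h6))
  have hc3 : c 3 = 0 := by
    refine kill (c := ![c 3, c 0, c 1, c 2, 0]) (n1 := l j') (n2 := l i) (n3 := l j) (n4 := l i') (n5 := l i')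
      (x := cr (l i) (l j)) (y := cr (l j) (l i')) ?_ ?_ ?_ ?_ ?_ ?_
    · simp only [Matrix.cons_val_zero, Matrix.cons_val_one, Matrix.cons_val]
      rw [← h, zero_smul, add_zero]; abel
    · rw [dt_cr_left, zero_mul]
    · rw [dt_cr_right, zero_mul]
    · rw [dt_cr_right, mul_zero]
    · rw [dt_cr_right, mul_zero]
    · exact mul_ne_zero (hl.ne h1 h3 h5) (hl.ne h4 h5 h6)
  intro a
  fin_cases a
  · exact hc0
  · exact hc1
  · exact hc2
  · exact hc3
  · exact hc4

theorem exists_m (hl : GP l) (i j i' j' : Fin q) (h1 : i ≠ j) (h2 : i ≠ i') (h3 : i ≠ j') (h4 : j ≠ i') (_h5 : j ≠ j') (h6 : i' ≠ j') :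
    ∃ m : Fin 3 → K, m ≠ 0 ∧ m ∈ Submodule.span K {l i, l j} ∧ m ∈ Submodule.span K {l i', l j'} := by
  refine ⟨d3 (l i) (l i') (l j') • l j - d3 (l j) (l i') (l j') • l i, ?_, ?_, ?_⟩
  · intro h
    have h7 := congrArg (fun n => dt n (cr (l i) (l i'))) h
    have h8 : dt (d3 (l i) (l i') (l j') • l j - d3 (l j) (l i') (l j') • l i) (cr (l i) (l i')) =
        d3 (l i) (l i') (l j') * dt (l j) (cr (l i) (l i')) - d3 (l j) (l i') (l j') * dt (l i) (cr (l i) (l i')) := by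
      simp only [dt, Pi.sub_apply, Pi.smul_apply, smul_eq_mul, sub_mul, Finset.sum_sub_distrib, Finset.mul_sum, mul_assoc]
    change dt _ _ = dt _ _ at h7
    rw [h8, dt_cr_left, mul_zero, sub_zero] at h7
    have h9 : dt (0 : Fin 3 → K) (cr (l i) (l i')) = 0 := by simp [dt]
    rw [h9] at h7
    exact mul_ne_zero (hl i i' j' h2 h3 h6) (hl.ne h2 h1 (Ne.symm h4)) h7
  · rw [Submodule.mem_span_pair]
    exact ⟨- d3 (l j) (l i') (l j'), d3 (l i) (l i') (l j'), by rw [neg_smul]; abel⟩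
  · rw [Submodule.mem_span_pair]
    refine ⟨d3 (l i) (l j) (l j'), - d3 (l i) (l j) (l i'), ?_⟩
    funext a
    fin_cases a <;> simp only [d3, Pi.add_apply, Pi.sub_apply, Pi.smul_apply, smul_eq_mul, Fin.zero_eta, Fin.mk_one, Fin.reduceFinMk] <;> ring

theorem indep3n [CharZero K] (hl : GP l) (i j k : Fin q) (h1 : i ≠ j) (h2 : i ≠ k) (h3 : j ≠ k) :
    LinearIndependent K ![sy (l i) (l i), sy (l j) (l j), sy (l k) (l k), sy (l i) (l j), sy (l i) (l k)] := by
  refine Fintype.linearIndependent_iff.2 fun c h => ?_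
  rw [Fin.sum_univ_five] at h
  simp only [Matrix.cons_val_zero, Matrix.cons_val_one, Matrix.cons_val] at h
  have key : ∀ x y : Fin 3 → K, c 0 * (2 * (dt (l i) x * dt (l i) y)) + c 1 * (2 * (dt (l j) x * dt (l j) y)) +
      c 2 * (2 * (dt (l k) x * dt (l k) y)) + c 3 * (dt (l i) x * dt (l j) y + dt (l j) x * dt (l i) y) +
      c 4 * (dt (l i) x * dt (l k) y + dt (l k) x * dt (l i) y) = 0 := by
    intro x y
    have h6 := congrArg (prL (ten x y)) h
    simp only [map_add, map_smul, prL_sq, prL_sy, map_zero, smul_eq_mul] at h6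
    exact h6
  have ei := hl.ne h3 (Ne.symm h1) (Ne.symm h2)
  have ej := hl.ne h2 h1 (Ne.symm h3)
  have ek := hl.ne h1 h2 h3
  have zjk := dt_cr_left (l j) (l k)
  have zjk' := dt_cr_right (l j) (l k)
  have zik := dt_cr_left (l i) (l k)
  have zik' := dt_cr_right (l i) (l k)
  have zij := dt_cr_left (l i) (l j)
  have zij' := dt_cr_right (l i) (l j)
  have two : (2 : K) ≠ 0 := two_ne_zero
  have g0 : c 0 = 0 := by
    have := key (cr (l j) (l k)) (cr (l j) (l k))
    simp only [zjk, zjk', mul_zero, zero_mul, add_zero] at this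
    simpa [ei] using this
  have g1 : c 1 = 0 := by
    have := key (cr (l i) (l k)) (cr (l i) (l k))
    simp only [zik, zik', mul_zero, zero_mul, add_zero, zero_add] at this
    simpa [ej] using this
  have g2 : c 2 = 0 := by
    have := key (cr (l i) (l j)) (cr (l i) (l j))
    simp only [zij, zij', mul_zero, zero_mul, add_zero, zero_add] at this
    simpa [ek] using this
  have g3 : c 3 = 0 := by
    have := key (cr (l j) (l k)) (cr (l i) (l k))
    simp only [zjk, zjk', zik, zik', mul_zero, zero_mul, add_zero, zero_add] at this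
    simpa [ei, ej] using this
  have g4 : c 4 = 0 := by
    have := key (cr (l j) (l k)) (cr (l i) (l j))
    simp only [zjk, zjk', zij, zij', mul_zero, zero_mul, add_zero, zero_add] at this
    simpa [ei, ek] using this
  intro a
  fin_cases a
  · exact g0
  · exact g1
  · exact g2
  · exact g3
  · exact g4

/-- A4. -/
theorem coef4m [CharZero K] (hl : GP l) (i j i' j' k k' : Fin q) (hd : [i, j, i', j', k, k'].Nodup) (m : Fin 3 → K)
    (_hm : m ≠ 0) (hm1 : m ∈ Submodule.span K {l i, l j}) (hm2 : m ∈ Submodule.span K {l i', l j'}) (r r' : K)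
    (_hr : r ≠ 0) (hr' : r' ≠ 0)
    (c : Fin 5 → K) (h : r • sy (l k) (l k) + r' • sy (l k') (l k') =
      c 0 • sy (l i) (l i) + c 1 • sy (l j) (l j) + c 2 • sy (l i') (l i') + c 3 • sy (l j') (l j') + c 4 • sy m m) :
    c 0 ≠ 0 ∧ c 1 ≠ 0 ∧ c 2 ≠ 0 ∧ c 3 ≠ 0 := by
  simp only [List.nodup_cons, List.mem_cons, List.not_mem_nil, or_false, not_or, List.nodup_nil, and_true,
    not_false_eq_true] at hd
  obtain ⟨⟨ij, ii', ij', ik, ik'⟩, ⟨ji', jj', jk, jk'⟩, ⟨i'j', i'k, i'k'⟩, ⟨j'k, j'k'⟩, kk'⟩ := hd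
  have key : ∀ x y : Fin 3 → K, r * (2 * (dt (l k) x * dt (l k) y)) + r' * (2 * (dt (l k') x * dt (l k') y)) =
      c 0 * (2 * (dt (l i) x * dt (l i) y)) + c 1 * (2 * (dt (l j) x * dt (l j) y)) +
      c 2 * (2 * (dt (l i') x * dt (l i') y)) + c 3 * (2 * (dt (l j') x * dt (l j') y)) + c 4 * (2 * (dt m x * dt m y)) := by
    intro x y
    have h6 := congrArg (prL (ten x y)) h
    simp only [map_add, map_smul, prL_sq, smul_eq_mul] at h6
    exact h6
  have mij : dt m (cr (l i) (l j)) = 0 := dt_zero_of_span hm1 (dt_cr_left _ _) (dt_cr_right _ _)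
  have mij' : dt m (cr (l i') (l j')) = 0 := dt_zero_of_span hm2 (dt_cr_left _ _) (dt_cr_right _ _)
  have two : (2 : K) ≠ 0 := two_ne_zero
  refine ⟨?_, ?_, ?_, ?_⟩
  · intro h0
    have := key (cr (l j) (l k)) (cr (l i') (l j'))
    simp only [h0, dt_cr_left, dt_cr_right, mij', mul_zero, zero_mul, add_zero, zero_add] at this
    exact mul_ne_zero hr' (mul_ne_zero two (mul_ne_zero (hl.ne jk jk' kk') (hl.ne i'j' i'k' j'k'))) this
  · intro h0
    have := key (cr (l i) (l k)) (cr (l i') (l j'))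
    simp only [h0, dt_cr_left, dt_cr_right, mij', mul_zero, zero_mul, add_zero, zero_add] at this
    exact mul_ne_zero hr' (mul_ne_zero two (mul_ne_zero (hl.ne ik ik' kk') (hl.ne i'j' i'k' j'k'))) this
  · intro h0
    have := key (cr (l j') (l k)) (cr (l i) (l j))
    simp only [h0, dt_cr_left, dt_cr_right, mij, mul_zero, zero_mul, add_zero, zero_add] at this
    exact mul_ne_zero hr' (mul_ne_zero two (mul_ne_zero (hl.ne j'k j'k' kk') (hl.ne ij ik' jk'))) this
  · intro h0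
    have := key (cr (l i') (l k)) (cr (l i) (l j))
    simp only [h0, dt_cr_left, dt_cr_right, mij, mul_zero, zero_mul, add_zero, zero_add] at this
    exact mul_ne_zero hr' (mul_ne_zero two (mul_ne_zero (hl.ne i'k i'k' kk') (hl.ne ij ik' jk'))) this

/-- A5. -/
theorem coef3n [CharZero K] (hl : GP l) (i j j' k k' : Fin q) (hd : [i, j, j', k, k'].Nodup) (r r' : K)
    (_hr : r ≠ 0) (hr' : r' ≠ 0)
    (c : Fin 5 → K) (h : r • sy (l k) (l k) + r' • sy (l k') (l k') =
      c 0 • sy (l i) (l i) + c 1 • sy (l j) (l j) + c 2 • sy (l j') (l j') + c 3 • sy (l i) (l j) + c 4 • sy (l i) (l j')) :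
    c 3 ≠ 0 ∧ c 4 ≠ 0 := by
  simp only [List.nodup_cons, List.mem_cons, List.not_mem_nil, or_false, not_or, List.nodup_nil, and_true,
    not_false_eq_true] at hd
  obtain ⟨⟨ij, ij', ik, ik'⟩, ⟨jj', jk, jk'⟩, ⟨j'k, j'k'⟩, kk'⟩ := hd
  have key : ∀ x y : Fin 3 → K, r * (2 * (dt (l k) x * dt (l k) y)) + r' * (2 * (dt (l k') x * dt (l k') y)) =
      c 0 * (2 * (dt (l i) x * dt (l i) y)) + c 1 * (2 * (dt (l j) x * dt (l j) y)) +
      c 2 * (2 * (dt (l j') x * dt (l j') y)) + c 3 * (dt (l i) x * dt (l j) y + dt (l j) x * dt (l i) y) +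
      c 4 * (dt (l i) x * dt (l j') y + dt (l j') x * dt (l i) y) := by
    intro x y
    have h6 := congrArg (prL (ten x y)) h
    simp only [map_add, map_smul, prL_sq, prL_sy, smul_eq_mul] at h6
    exact h6
  have two : (2 : K) ≠ 0 := two_ne_zero
  refine ⟨?_, ?_⟩
  · intro h0
    have := key (cr (l j) (l k)) (cr (l i) (l j'))
    simp only [h0, dt_cr_left, dt_cr_right, mul_zero, zero_mul, add_zero, zero_add] at this
    exact mul_ne_zero hr' (mul_ne_zero two (mul_ne_zero (hl.ne jk jk' kk') (hl.ne ij' ik' j'k'))) this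
  · intro h0
    have := key (cr (l j') (l k)) (cr (l i) (l j))
    simp only [h0, dt_cr_left, dt_cr_right, mul_zero, zero_mul, add_zero, zero_add] at this
    exact mul_ne_zero hr' (mul_ne_zero two (mul_ne_zero (hl.ne j'k j'k' kk') (hl.ne ij ik' jk'))) this

/-- A functional which vanishes at the squares of the lines of two nodes and of the line through them. -/
theorem node_zero {i j i' j' : Fin q} {m : Fin 3 → K} (hm1 : m ∈ Submodule.span K {l i, l j}) {g : Fin 6 → K}
    (hg : g ∈ Submodule.span K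
      {sy (l i) (l i), sy (l j) (l j), sy (l i') (l i'), sy (l j') (l j'), sy m m}) :
    prL (ten (cr (l i) (l j)) (cr (l i') (l j'))) g = 0 := by
  have h1 : Submodule.span K {sy (l i) (l i), sy (l j) (l j), sy (l i') (l i'), sy (l j') (l j'), sy m m} ≤
      LinearMap.ker (prL (ten (cr (l i) (l j)) (cr (l i') (l j')))) := by
    rw [Submodule.span_le]
    intro g hg
    simp only [Set.mem_insert_iff, Set.mem_singleton_iff] at hg
    rw [SetLike.mem_coe, LinearMap.mem_ker]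
    rcases hg with rfl | rfl | rfl | rfl | rfl
    · rw [prL_sq, dt_cr_left]; ring
    · rw [prL_sq, dt_cr_right]; ring
    · rw [prL_sq, dt_cr_left]; ring
    · rw [prL_sq, dt_cr_right]; ring
    · rw [prL_sq, dt_zero_of_span hm1 (dt_cr_left _ _) (dt_cr_right _ _)]; ring
  exact h1 hg

/-- A6. -/
theorem coef4m' [CharZero K] (hl : GP l) (i j i' j' k : Fin q) (hd : [i, j, i', j', k].Nodup) (m : Fin 3 → K)
    (_hm : m ≠ 0) (hm1 : m ∈ Submodule.span K {l i, l j}) (_hm2 : m ∈ Submodule.span K {l i', l j'}) :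
    sy (l k) (l k) ∉ Submodule.span K
      {sy (l i) (l i), sy (l j) (l j), sy (l i') (l i'), sy (l j') (l j'), sy m m} := by
  simp only [List.nodup_cons, List.mem_cons, List.not_mem_nil, or_false, not_or, List.nodup_nil, and_true,
    not_false_eq_true] at hd
  obtain ⟨⟨ij, ii', ij', ik⟩, ⟨ji', jj', jk⟩, ⟨i'j', i'k⟩, j'k⟩ := hd
  intro h
  have h1 := node_zero l hm1 h
  rw [prL_sq] at h1
  exact mul_ne_zero two_ne_zero (mul_ne_zero (hl.ne ij ik jk) (hl.ne i'j' i'k j'k)) h1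

/-- A7. -/
theorem rel_rank {Q : Type*} [AddCommGroup Q] [Module K Q] (Φ : (Fin 6 → K) →ₗ[K] Q) (hΦ : Function.Surjective Φ)
    {n : ℕ} (w : Fin n → Fin 6 → K) (hw : LinearIndependent K w) :
    n + finrank K Q ≤ 6 + finrank K (Submodule.span K (Set.range (Φ ∘ w))) := by
  have h1 : finrank K (Submodule.span K (Set.range w)) = n := by
    rw [finrank_span_eq_card hw, Fintype.card_fin]
  have h2 := LinearMap.finrank_range_add_finrank_ker Φ
  rw [LinearMap.range_eq_top.2 hΦ, finrank_top, Module.finrank_fin_fun] at h2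
  set W := Submodule.span K (Set.range w) with hW
  have h3 := LinearMap.finrank_range_add_finrank_ker (Φ.domRestrict W)
  rw [h1] at h3
  have h4 : LinearMap.range (Φ.domRestrict W) = Submodule.span K (Set.range (Φ ∘ w)) := by
    rw [LinearMap.range_domRestrict, hW, Submodule.map_span, Set.range_comp]
  rw [h4] at h3
  have h5 : finrank K (LinearMap.ker (Φ.domRestrict W)) ≤ finrank K (LinearMap.ker Φ) := by
    refine LinearMap.finrank_le_finrank_of_injective
      (f := (W.subtype.comp (LinearMap.ker (Φ.domRestrict W)).subtype).codRestrict (LinearMap.ker Φ) ?_) ?_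
    · intro x
      exact x.2
    · intro x y hxy
      have := congrArg Subtype.val hxy
      exact Subtype.ext (Subtype.ext this)
  omega

/-! ### Block T: the types -/

theorem supp_two (a : Fin q → ℝ) (ha : ∀ i j k, i ≠ j → i ≠ k → j ≠ k → a i = 0 ∨ a j = 0 ∨ a k = 0) (hq : 2 ≤ q) :
    ∃ i j : Fin q, i ≠ j ∧ ∀ k, k ≠ i → k ≠ j → a k = 0 := by
  by_cases h : ∃ i, a i ≠ 0
  · obtain ⟨i, hi⟩ := h
    by_cases h' : ∃ j, j ≠ i ∧ a j ≠ 0
    · obtain ⟨j, hj, hj0⟩ := h'
      refine ⟨i, j, Ne.symm hj, fun k hk hk' => ?_⟩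
      rcases ha i j k (Ne.symm hj) (Ne.symm hk) (Ne.symm hk') with h1 | h1 | h1
      · exact absurd h1 hi
      · exact absurd h1 hj0
      · exact h1
    · have hex : ∃ j, j ≠ i := by
        have : Nontrivial (Fin q) := Fin.nontrivial_iff_two_le.2 hq
        exact exists_ne i
      obtain ⟨j, hj⟩ := hex
      refine ⟨i, j, Ne.symm hj, fun k hk _ => ?_⟩
      by_contra h0
      exact h' ⟨k, hk, h0⟩
  · refine ⟨⟨0, by omega⟩, ⟨1, by omega⟩, by simp [Fin.ext_iff], fun k _ _ => ?_⟩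
    by_contra h0
    exact h ⟨k, h0⟩

theorem types {Q : Type*} [AddCommGroup Q] [Module K Q] (Φ : (Fin 6 → K) →ₗ[K] Q) (s : Q → ℝ) (a b : Fin q → ℝ)
    (hp : Plc Φ l s a b) (hq4 : 4 ≤ q) :
    (∃ i j i' j' : Fin q, [i, j, i', j'].Nodup ∧ (∀ k, k ≠ i → k ≠ j → a k = 0) ∧ (∀ k, k ≠ i' → k ≠ j' → b k = 0) ∧
      a i ≤ a j ∧ b i' ≤ b j') ∨
    (∃ i j k : Fin q, [i, j, k].Nodup ∧ (∀ k', k' ≠ i → k' ≠ j → a k' = 0) ∧ (∀ k', k' ≠ i → k' ≠ k → b k' = 0)) ∨
    (∃ i j : Fin q, i ≠ j ∧ (∀ k', k' ≠ i → k' ≠ j → a k' = 0) ∧ (∀ k', k' ≠ i → k' ≠ j → b k' = 0)) := by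
  have hq : 2 ≤ q := by omega
  obtain ⟨i, j, hij, ha⟩ : ∃ i j : Fin q, i ≠ j ∧ (∀ k, k ≠ i → k ≠ j → a k = 0) ∧ a i ≤ a j := by
    obtain ⟨i, j, hij, h⟩ := supp_two a hp.agp hq
    rcases le_total (a i) (a j) with h1 | h1
    · exact ⟨i, j, hij, h, h1⟩
    · exact ⟨j, i, Ne.symm hij, fun k hk hk' => h k hk' hk, h1⟩
  obtain ⟨i', j', hij', hb⟩ : ∃ i j : Fin q, i ≠ j ∧ (∀ k, k ≠ i → k ≠ j → b k = 0) ∧ b i ≤ b j := by
    obtain ⟨i, j, hij, h⟩ := supp_two b hp.bgp hq
    rcases le_total (b i) (b j) with h1 | h1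
    · exact ⟨i, j, hij, h, h1⟩
    · exact ⟨j, i, Ne.symm hij, fun k hk hk' => h k hk' hk, h1⟩
  by_cases e1 : i = i'
  · subst e1
    by_cases e2 : j = j'
    · subst e2
      exact Or.inr (Or.inr ⟨i, j, hij, ha.1, hb.1⟩)
    · refine Or.inr (Or.inl ⟨i, j, j', ?_, ha.1, hb.1⟩)
      simp [hij, hij', e2]
  by_cases e2 : i = j'
  · subst e2
    by_cases e3 : j = i'
    · subst e3
      exact Or.inr (Or.inr ⟨i, j, hij, ha.1, fun k h1 h2 => hb.1 k h2 h1⟩)
    · refine Or.inr (Or.inl ⟨i, j, i', ?_, ha.1, fun k h1 h2 => hb.1 k h2 h1⟩)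
      simp [hij, e1, e3]
  by_cases e3 : j = i'
  · subst e3
    refine Or.inr (Or.inl ⟨j, i, j', ?_, fun k h1 h2 => ha.1 k h2 h1, hb.1⟩)
    simp [Ne.symm hij, hij', e2]
  by_cases e4 : j = j'
  · subst e4
    refine Or.inr (Or.inl ⟨j, i, i', ?_, fun k h1 h2 => ha.1 k h2 h1, fun k h1 h2 => hb.1 k h2 h1⟩)
    simp [Ne.symm hij, e1, e3]
  refine Or.inl ⟨i, j, i', j', ?_, ha.1, hb.1, ha.2, hb.2⟩
  simp [hij, hij', e1, e2, e3, e4]

end Pool.Agent.QP
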