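import Pool.Agent.Helper17.QP.A
import Pool.Agent.Helper61.QP.Sch

/-!
# Project QP, block FIX: points of the plane over a fixed number field
-/

set_option autoImplicit false

namespace Pool.Agent.QP

open NumberField Filter Module
open Pool.Agent.Helper64.Vojta (Pl nv nv_nonneg nv_mul nv_one nv_zero nv_pos sn)
open Pool.Agent.V2

variable {k : Type*} [Field k] [NumberField k]

omit [NumberField k] in
theorem dt_eq_vl (l x : Fin 3 → k) : dt l x = vl l x := rfl

theorem eventually_exists_fin {α β : Type*} [Finite β] (U : Ultrafilter α) (P : α → β → Prop)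
    (h : ∀ᶠ n in (U : Filter α), ∃ m, P n m) : ∃ m, ∀ᶠ n in (U : Filter α), P n m := by
  by_contra h0
  have h1 : ∀ m, ∀ᶠ n in (U : Filter α), ¬ P n m := fun m => Ultrafilter.eventually_not.mpr fun h => h0 ⟨m, h⟩
  have h2 := (eventually_all.2 h1).and h
  obtain ⟨n, h3, m, h4⟩ := h2.exists
  exact h3 m h4

/-- One of three independent forms has size zero. -/
theorem szf_zero (U : Ultrafilter ℕ) (X : ℕ → Fin 3 → k) (hX : ∀ n, X n ≠ 0)
    (hH : Tendsto (fun n => vH (X n)) (U : Filter ℕ) atTop) (v : Pl k) (a : Fin 3 → Fin 3 → k)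
    (hd : d3 (a 0) (a 1) (a 2) ≠ 0) (ha : ∀ m, a m ∉ van U X) : ∃ m, szf U X v (a m) = 0 := by
  classical
  set A : Matrix (Fin 3) (Fin 3) k := Matrix.of a with hA
  have hdet : A.det ≠ 0 := by
    have h1 : A.det = d3 (a 0) (a 1) (a 2) := by
      rw [Matrix.det_fin_three]
      simp only [hA, Matrix.of_apply, d3]
      ring
    rw [h1]; exact hd
  have hinv : ∀ n, X n = Matrix.mulVec A⁻¹ (Matrix.mulVec A (X n)) := by
    intro n
    rw [Matrix.mulVec_mulVec, Matrix.nonsing_inv_mul _ (isUnit_iff_ne_zero.2 hdet), Matrix.one_mulVec]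
  set Y : ℕ → Fin 3 → k := fun n => Matrix.mulVec A (X n) with hY
  have hYm : ∀ n m, Y n m = vl (a m) (X n) := fun n m => rfl
  have hY0 : ∀ n, Y n ≠ 0 := by
    intro n h0
    apply hX n
    rw [hinv n]
    change Matrix.mulVec A⁻¹ (Y n) = 0
    rw [h0, Matrix.mulVec_zero]
  have hXa : ∀ n j, X n j = vl (A⁻¹ j) (Y n) := by
    intro n j
    conv_lhs => rw [hinv n]
    rfl
  -- the constant
  set C : ℝ := ∑ j, lcf (A⁻¹ j) v with hC
  have hbound : ∀ n, vn v (X n) ≤ Real.exp C * vn v (Y n) := by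
    intro n
    unfold vn
    refine ciSup_le fun j => ?_
    rw [hXa]
    refine (nv_vl_le (A⁻¹ j) (Y n) (hY0 n) v).trans ?_
    refine mul_le_mul_of_nonneg_right ?_ (vn_pos v (hY0 n)).le
    exact Real.exp_le_exp.2 (Finset.single_le_sum (f := fun j => lcf (A⁻¹ j) v) (fun j _ => lcf_nonneg _ _) (Finset.mem_univ j))
  obtain ⟨m, hm⟩ := eventually_exists_fin U (fun n m => vn v (Y n) = nv v (Y n m)) (Eventually.of_forall fun n => by
    obtain ⟨m, hm⟩ := exists_eq_ciSup_of_finite (f := fun m => nv v (Y n m))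
    exact ⟨m, hm.symm⟩)
  refine ⟨m, le_antisymm ?_ (szf_nonneg U X hH v _ (ha m))⟩
  refine le_of_tendsto_of_tendsto (szf_tendsto U X hH v _ (ha m))
    (tendsto_const_nhds.div_atTop hH : Tendsto (fun n => C / vH (X n)) (U : Filter ℕ) (nhds 0)) ?_
  filter_upwards [hm, hH.eventually_gt_atTop 0, not_van U X (ha m)] with n h1 h2 h3
  refine div_le_div_of_nonneg_right ?_ h2.le
  have h4 := Real.log_le_log (vn_pos v (hX n)) (hbound n)
  rw [Real.log_mul (Real.exp_pos _).ne' (vn_pos v (hY0 n)).ne', Real.log_exp, h1, hYm] at h4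
  linarith

/-- The limit form of FIX. -/
theorem fix_lim {q : ℕ} (l : Fin q → Fin 3 → k) (hl : GP l) (S : Finset (Pl k)) (U : Ultrafilter ℕ) (X : ℕ → Fin 3 → k)
    (hX : ∀ n, X n ≠ 0) (hH : Tendsto (fun n => vH (X n)) (U : Filter ℕ) atTop) (hD : ∀ n i, dt (l i) (X n) ≠ 0) :
    ∑ w ∈ S, ∑ i, szf U X w (l i) ≤ 4 := by
  classical
  have hv : ∀ i, l i ∉ van U X := by
    intro i h
    obtain ⟨n, hn⟩ := (show ∀ᶠ n in (U : Filter ℕ), vl (l i) (X n) = 0 from h).exists
    exact hD n i hn
  have hmk : ∀ i, (van U X).mkQ (l i) ≠ 0 := fun i h => hv i ((Submodule.Quotient.mk_eq_zero _).1 h)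
  have hsz : ∀ w i, szf U X w (l i) = sz U X w ((van U X).mkQ (l i)) := fun w i => (sz_mk U X hH w (l i) (hv i)).symm
  have h0 : ∀ w i, 0 ≤ szf U X w (l i) := fun w i => szf_nonneg U X hH w _ (hv i)
  by_cases hq : q ≤ 4
  · rw [Finset.sum_comm]
    calc ∑ i, ∑ w ∈ S, szf U X w (l i) ≤ ∑ i : Fin q, (1 : ℝ) := by
          refine Finset.sum_le_sum fun i _ => ?_
          simp only [hsz]
          exact res U X hH S _ (hmk i)
      _ = q := by simp
      _ ≤ 4 := by exact_mod_cast hq
  push Not at hq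
  -- two forms at each place
  have h2 : ∀ w, ∃ i j : Fin q, i ≠ j ∧ ∀ m, m ≠ i → m ≠ j → szf U X w (l m) = 0 := by
    intro w
    refine supp_two (fun i => szf U X w (l i)) ?_ (by omega)
    intro i j m hij him hjm
    obtain ⟨t, ht⟩ := szf_zero U X hX hH w ![l i, l j, l m] (by
      simpa using hl i j m hij him hjm) (by
      intro t
      fin_cases t
      · exact hv i
      · exact hv j
      · exact hv m)
    fin_cases t
    · exact Or.inl ht
    · exact Or.inr (Or.inl ht)
    · exact Or.inr (Or.inr ht)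
  choose i j hij hz using h2
  have hsum : ∀ w, ∑ m, szf U X w (l m) = szf U X w (l (i w)) + szf U X w (l (j w)) := by
    intro w
    rw [← Finset.sum_subset (Finset.subset_univ ({i w, j w} : Finset (Fin q))), Finset.sum_pair (hij w)]
    intro m _ hm
    simp only [Finset.mem_insert, Finset.mem_singleton, not_or] at hm
    exact hz w m hm.1 hm.2
  simp only [hsum]
  have hdim : finrank k (Qt U X) + finrank k (van U X) = 3 := by
    have := Submodule.finrank_quotient_add_finrank (van U X)
    rwa [Module.finrank_fin_fun] at this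
  by_cases h3 : finrank k (Qt U X) = 3
  · -- linearly nondegenerate
    have hbot : van U X = ⊥ := Submodule.finrank_eq_zero.1 (by omega)
    have hsch := sch U X hH S (fun _ => 2) (fun w => ![(van U X).mkQ (l (i w)), (van U X).mkQ (l (j w))]) (by
      intro w _
      have hli : LinearIndependent k ![l (i w), l (j w)] := by
        obtain ⟨m, hm⟩ : ∃ m : Fin q, m ∉ ({i w, j w} : Finset (Fin q)) := by
          by_contra h0
          push Not at h0
          have h1 : (Finset.univ : Finset (Fin q)) ⊆ {i w, j w} := fun k _ => h0 k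
          have h2 := (Finset.card_le_card h1).trans Finset.card_le_two
          rw [Finset.card_univ, Fintype.card_fin] at h2
          omega
        simp only [Finset.mem_insert, Finset.mem_singleton, not_or] at hm
        have h1 := hl (i w) (j w) m (hij w) (Ne.symm hm.1) (Ne.symm hm.2)
        have hi0 : l (i w) ≠ 0 := by
          intro h
          apply h1
          rw [h]; simp [d3]
        rw [LinearIndependent.pair_iff' hi0]
        intro t ht
        apply h1
        rw [← ht]
        simp only [d3, Pi.smul_apply, smul_eq_mul]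
        ring
      have hk : LinearMap.ker (van U X).mkQ = ⊥ := by rw [Submodule.ker_mkQ, hbot]
      have h4 := hli.map' _ hk
      have h5 : (![(van U X).mkQ (l (i w)), (van U X).mkQ (l (j w))] : Fin 2 → Qt U X) =
          (van U X).mkQ ∘ ![l (i w), l (j w)] := by
        funext t
        fin_cases t <;> rfl
      rw [h5]
      exact h4)
    rw [h3] at hsch
    simp only [Fin.sum_univ_two, Matrix.cons_val_zero, Matrix.cons_val_one] at hsch
    simp only [← hsz] at hsch
    refine hsch.trans (by norm_num)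
  · -- degenerate
    have h4 : finrank k (Qt U X) ≤ 2 := by omega
    let e : Pl k → Fin q := fun w => if szf U X w (l (i w)) ≤ szf U X w (l (j w)) then j w else i w
    have hsch := sch U X hH S (fun _ => 1) (fun w _ => (van U X).mkQ (l (e w))) (by
      intro w _
      exact LinearIndependent.of_subsingleton 0 (hmk _))
    simp only [Finset.univ_unique, Finset.sum_singleton] at hsch
    simp only [← hsz] at hsch
    have h5 : ∀ w, szf U X w (l (i w)) + szf U X w (l (j w)) ≤ 2 * szf U X w (l (e w)) := by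
      intro w
      by_cases h : szf U X w (l (i w)) ≤ szf U X w (l (j w))
      · have : e w = j w := if_pos h
        rw [this]; linarith
      · have : e w = i w := if_neg h
        rw [this]; linarith [not_le.1 h]
    calc _ ≤ ∑ w ∈ S, 2 * szf U X w (l (e w)) := Finset.sum_le_sum fun w _ => h5 w
      _ = 2 * ∑ w ∈ S, szf U X w (l (e w)) := by rw [Finset.mul_sum]
      _ ≤ 2 * (finrank k (Qt U X) : ℝ) := by linarith
      _ ≤ 4 := by
        have : (finrank k (Qt U X) : ℝ) ≤ 2 := by exact_mod_cast h4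
        linarith

/-- **FIX.** -/
theorem fix {q : ℕ} (l : Fin q → Fin 3 → k) (hl : GP l) (S : Finset (Pl k)) (ε : ℝ) (hε : 0 < ε) :
    ∃ C : ℝ, ∀ X : Fin 3 → k, X ≠ 0 → (∀ i, dt (l i) X ≠ 0) →
      ∑ w ∈ S, ∑ i, (Real.log (sn w X) - Real.log (nv w (dt (l i) X))) ≤ (4 + ε) * Height.logHeight X + C := by
  classical
  by_contra hcon
  push Not at hcon
  choose X hX0 hXD hX using fun n : ℕ => hcon n
  set G : ℝ := ∑ i, gsum (lcf (l i)) with hG
  have hle : ∀ n, ∑ w ∈ S, ∑ i, (Real.log (sn w (X n)) - Real.log (nv w (dt (l i) (X n)))) ≤ q * vH (X n) + G := by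
    intro n
    rw [Finset.sum_comm]
    calc _ ≤ ∑ i : Fin q, (vH (X n) + gsum (lcf (l i))) :=
          Finset.sum_le_sum fun i _ => sum_wl_le (l i) (X n) (hXD n i) S
      _ = _ := by rw [Finset.sum_add_distrib]; simp [hG]
  have hvH : ∀ n, vH (X n) = Height.logHeight (X n) := fun n => vH_eq (hX0 n)
  have h0 : ∀ n, 0 ≤ vH (X n) := fun n => vH_nonneg (hX0 n)
  have hn : ∀ n : ℕ, (n : ℝ) - G ≤ (q + 1 : ℝ) * vH (X n) := by
    intro n
    have h1 := hX n
    have h2 := hle n
    rw [← hvH] at h1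
    nlinarith [h0 n, mul_nonneg hε.le (h0 n)]
  let U : Ultrafilter ℕ := hyperfilter ℕ
  have hq1 : (0 : ℝ) < q + 1 := by positivity
  have hat : Tendsto (fun n => vH (X n)) atTop atTop := by
    have h1 : Tendsto (fun n : ℕ => ((n : ℝ) - G) / (q + 1 : ℝ)) atTop atTop :=
      (tendsto_atTop_add_const_right _ (-G) tendsto_natCast_atTop_atTop).atTop_div_const hq1
    refine tendsto_atTop_mono (fun n => ?_) h1
    rw [div_le_iff₀ hq1, mul_comm]
    exact hn n
  have hH : Tendsto (fun n => vH (X n)) (U : Filter ℕ) atTop := hat.mono_left Nat.hyperfilter_le_atTop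
  have hlim := fix_lim l hl S U X hX0 hH hXD
  have hv : ∀ i, l i ∉ van U X := by
    intro i h
    obtain ⟨n, hn⟩ := (show ∀ᶠ n in (U : Filter ℕ), vl (l i) (X n) = 0 from h).exists
    exact hXD n i hn
  have ht : Tendsto (fun n => ∑ w ∈ S, ∑ i, (Real.log (vn w (X n)) - Real.log (nv w (vl (l i) (X n)))) / vH (X n))
      (U : Filter ℕ) (nhds (∑ w ∈ S, ∑ i, szf U X w (l i))) :=
    tendsto_finsetSum _ fun w _ => tendsto_finsetSum _ fun i _ => szf_tendsto U X hH w _ (hv i)
  have hge : 4 + ε ≤ ∑ w ∈ S, ∑ i, szf U X w (l i) := by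
    refine ge_of_tendsto ht ?_
    filter_upwards [hH.eventually_gt_atTop 0] with n h1
    have h2 := hX n
    rw [← hvH] at h2
    simp only [← Finset.sum_div]
    rw [le_div_iff₀ h1]
    have h3 : (0 : ℝ) ≤ n := Nat.cast_nonneg n
    have h4 : ∑ w ∈ S, ∑ i, (Real.log (sn w (X n)) - Real.log (nv w (dt (l i) (X n)))) =
        ∑ w ∈ S, ∑ i, (Real.log (vn w (X n)) - Real.log (nv w (vl (l i) (X n)))) := rfl
    rw [← h4]
    linarith
  linarith

end Pool.Agent.QP
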